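import Pool.Agent.Helper22_LLG.Stmt
import Pool.Agent.Helper53_LLG.FinInner

/-!
# LLG: module BASE
-/

set_option autoImplicit false

namespace Pool.Agent.LLG.H7

open SimpleGraph Pool.Agent.LAG

theorem base : BaseStmt := by
  intro k h q hk hnum V _ A R Q hS
  classical
  have hsd : A \ (A \ R) = R := by
    rw [sdiff_sdiff_right_self]
    exact inf_eq_right.2 hS.le
  have hM : ∀ v, ((A \ R).neighborSet v).ncard ≤ 2 := by
    intro v
    have h1 : insert v ((A \ R).neighborSet v) ⊆ {b | (A \ R).Reachable v b} := by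
      intro b hb
      rcases hb with hb | hb
      · rw [hb]
        exact Reachable.refl _
      · exact Adj.reachable hb
    have h2 := Set.ncard_le_ncard h1 (Set.toFinite _)
    have h3 : (insert v ((A \ R).neighborSet v)).ncard = ((A \ R).neighborSet v).ncard + 1 :=
      Set.ncard_insert_of_notMem (fun h => (A \ R).loopless.irrefl v h) (Set.toFinite _)
    have := hS.m3 v
    omega
  have hA : ∀ v, (A.neighborSet v).ncard ≤ 2 * k + 2 := by
    intro v
    have h1 : A.neighborSet v ⊆ R.neighborSet v ∪ (A \ R).neighborSet v := by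
      intro b hb
      by_cases hR : R.Adj v b
      · exact Or.inl hR
      · exact Or.inr ⟨hb, hR⟩
    have h2 := Set.ncard_le_ncard h1 (Set.toFinite _)
    have h3 := Set.ncard_union_le (R.neighborSet v) ((A \ R).neighborSet v)
    have := hM v
    have := hS.deg v
    omega
  obtain ⟨F, N, h1, h2, _, h4, h5⟩ := H53.finInnerAll V A (A \ R) Q (2 * k + 2) h k hA
    (by simpa using hnum) hS.big sdiff_le hS.m2 hS.m3 hS.sep (by rw [hsd]; exact hS.deg) (by omega)
  rw [hsd] at h2
  have hF : ∀ i, F i ≤ R := fun i => by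
    rw [← h2]
    exact le_sup_of_le_left (le_iSup F i)
  have hN : N ≤ R := by
    rw [← h2]
    exact le_sup_right
  refine ⟨F, N, fun i => ⟨hF i, (h1 i).1, (h1 i).2⟩, hN, h2, ?_, h5⟩
  intro u v huv x hx hr
  exact h4 u v huv x hx (near_mono (by norm_num) (near_le sdiff_le (hS.m2 u x hr)))

end Pool.Agent.LLG.H7
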