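import Pool.Agent.Helper76_LAG.All

/-!
# LLG: number of cycles through a given dart at a given position
-/

set_option autoImplicit false

namespace Pool.Agent.LAG

open SimpleGraph

/-- CYCD: the number of cycles of `R` with `n + 1` vertices which use the dart `(u, v)` at the
position `p`. -/
def CycDStmt : Prop := ∀ (V : Type) [Fintype V] (R : SimpleGraph V) (h d : ℕ),
    Big R (2 * h) → (∀ v, (R.neighborSet v).ncard ≤ d) →
    ∀ (n p : ℕ) (u v : V), p ≤ n →
    Nat.card {z : Fin (n + 1) → V // IsC R (cyc z) (n + 1) ∧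
      (cyc z p = u ∧ cyc z (p + 1) = v)} ≤ d ^ (n - h)

namespace H7

variable {V : Type}

/-- The paths with `k` edges which start with the dart `(u, v)`, constant after `k`. -/
def PthD (R : SimpleGraph V) (k : ℕ) (u v : V) : Set (ℕ → V) :=
  {z | IsP R z k ∧ z 0 = u ∧ z 1 = v ∧ ∀ t, k ≤ t → z t = z k}

theorem PthD.sub (R : SimpleGraph V) (k : ℕ) (u v : V) : PthD R k u v ⊆ H10.Pth R k u :=
  fun _ hz => ⟨hz.1, hz.2.1, hz.2.2.2⟩

theorem exists_idx [Finite V] (R : SimpleGraph V) (d : ℕ)
    (hd : ∀ v, (R.neighborSet v).ncard ≤ d) (w : V) :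
    ∃ f : V → ℕ, (∀ x, R.Adj w x → f x < d) ∧ ∀ x y, R.Adj w x → R.Adj w y → f x = f y → x = y := by
  classical
  have hfin : (R.neighborSet w).Finite := Set.toFinite _
  have : Fintype (R.neighborSet w) := hfin.fintype
  have hc : Fintype.card (R.neighborSet w) ≤ d := by
    have := hd w
    rwa [← Nat.card_coe_set_eq, Nat.card_eq_fintype_card] at this
  let e := Fintype.equivFin (R.neighborSet w)
  refine ⟨fun x => if hx : R.Adj w x then (e ⟨x, hx⟩).val else 0, ?_, ?_⟩
  · intro x hx
    simp only [dif_pos hx]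
    exact lt_of_lt_of_le (e ⟨x, hx⟩).isLt hc
  · intro x y hx hy h
    simp only [dif_pos hx, dif_pos hy] at h
    have := e.injective (Fin.ext h)
    exact congrArg Subtype.val this

theorem card_pthD [Finite V] (R : SimpleGraph V) (d : ℕ)
    (hd : ∀ v, (R.neighborSet v).ncard ≤ d) (u v : V) : ∀ k : ℕ,
    (PthD R (k + 1) u v).ncard ≤ d ^ k := by
  classical
  have hfin : ∀ k, (PthD R k u v).Finite := fun k => (H10.Pth.finite R k u).subset (PthD.sub R k u v)
  choose f hf1 hf2 using exists_idx R d hd
  intro k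
  induction k with
  | zero =>
    rw [pow_zero, Set.ncard_le_one (hfin _)]
    intro z hz z' hz'
    funext t
    rcases t with _ | t
    · rw [hz.2.1, hz'.2.1]
    · rw [hz.2.2.2 (t + 1) (by omega), hz'.2.2.2 (t + 1) (by omega)]
      simp only [zero_add]
      rw [hz.2.2.1, hz'.2.2.1]
  | succ k ih =>
    have h1 : (PthD R (k + 1 + 1) u v).ncard ≤
        ((PthD R (k + 1) u v) ×ˢ ({i : ℕ | i < d})).ncard := by
      refine Set.ncard_le_ncard_of_injOn (fun z => ((fun t => z (min t (k + 1))),
        f (z (k + 1)) (z (k + 1 + 1)))) ?_ ?_ ((hfin _).prod (Set.finite_lt_nat d))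
      · intro z hz
        refine ⟨?_, hf1 _ _ (hz.1.1 (k + 1) (by omega))⟩
        have h2 := H10.IsP.trunc hz.1 (n := k + 1) (by omega)
        refine ⟨h2.1, ?_, ?_, h2.2.2⟩
        · simp only [Nat.zero_min]
          exact hz.2.1
        · simp only
          rw [min_eq_left (by omega)]
          exact hz.2.2.1
      · intro z hz z' hz' h
        simp only [Prod.mk.injEq] at h
        obtain ⟨h2, h3⟩ := h
        have h4 : ∀ t, t ≤ k + 1 → z t = z' t := by
          intro t ht
          have := congrFun h2 t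
          rwa [min_eq_left ht] at this
        have h5 : z (k + 1 + 1) = z' (k + 1 + 1) := by
          rw [← h4 (k + 1) le_rfl] at h3
          refine hf2 (z (k + 1)) _ _ (hz.1.1 (k + 1) (by omega)) ?_ h3
          rw [h4 (k + 1) le_rfl]
          exact hz'.1.1 (k + 1) (by omega)
        funext t
        rcases Nat.lt_or_ge (k + 1) t with ht | ht
        · rw [hz.2.2.2 t ht, hz'.2.2.2 t ht]
          exact h5
        · exact h4 t ht
    rw [Set.ncard_prod] at h1
    have h2 : ({i : ℕ | i < d}).ncard = d := by
      rw [show {i : ℕ | i < d} = ↑(Finset.range d) by ext; simp, Set.ncard_coe_finset,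
        Finset.card_range]
    rw [h2] at h1
    calc (PthD R (k + 1 + 1) u v).ncard ≤ (PthD R (k + 1) u v).ncard * d := h1
      _ ≤ d ^ k * d := Nat.mul_le_mul_right _ ih
      _ = d ^ (k + 1) := by rw [pow_succ]

theorem cycD (hU : UniqSStmt) (hC : CycLenStmt) : CycDStmt := by
  intro V _ R h d hG hd n p u v hp
  classical
  have hlen : ∀ z : Fin (n + 1) → V, IsC R (cyc z) (n + 1) → 2 * h < n + 1 := fun z hz =>
    hC V R _ hG _ _ hz
  rcases isEmpty_or_nonempty {z : Fin (n + 1) → V // IsC R (cyc z) (n + 1) ∧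
      (cyc z p = u ∧ cyc z (p + 1) = v)} with hem | ⟨⟨z0, hz0, hz0u, hz0v⟩⟩
  · rw [Nat.card_of_isEmpty]
    exact Nat.zero_le _
  have hl0 := hlen z0 hz0
  have hn3 : 3 ≤ n + 1 := hz0.1
  have hd1 : 1 ≤ d := by
    have h1 : (R.neighborSet (cyc z0 0)).Nonempty := ⟨_, H10.isC_adj hz0 0⟩
    have h2 := (Set.ncard_pos (Set.toFinite _)).2 h1
    exact le_trans h2 (hd _)
  -- the number of edges of the path which determines the cycle
  obtain ⟨k, hk1, hk2, hk3, hk4⟩ : ∃ k, k + 1 ≤ n ∧ k ≤ n - h ∧ n ≤ k + 1 + (h - 1) ∧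
      (h = 0 → k + 1 = n) := by
    by_cases h0 : h = 0
    · exact ⟨n - 1, by omega, by omega, by omega, by omega⟩
    · exact ⟨n - h, by omega, by omega, by omega, by omega⟩
  have h1 : Nat.card {z : Fin (n + 1) → V // IsC R (cyc z) (n + 1) ∧
      (cyc z p = u ∧ cyc z (p + 1) = v)} ≤ (PthD R (k + 1) u v).ncard := by
    rw [← Nat.card_coe_set_eq]
    have hfin : Finite ↑(PthD R (k + 1) u v) :=
      ((H10.Pth.finite R (k + 1) u).subset (PthD.sub R (k + 1) u v)).to_subtype
    have hr : ∀ z : {z : Fin (n + 1) → V // IsC R (cyc z) (n + 1) ∧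
        (cyc z p = u ∧ cyc z (p + 1) = v)},
        (fun t => cyc z.1 (p + min t (k + 1))) ∈ PthD R (k + 1) u v := by
      rintro ⟨z, hz, hy, hy'⟩
      have h2 := H10.IsP.trunc (H10.isC_path hz p (k + 1) hk1) (le_refl (k + 1))
      simp only [add_zero, hy] at h2
      refine ⟨h2.1, h2.2.1, ?_, h2.2.2⟩
      simp only
      rw [min_eq_left (by omega)]
      exact hy'
    refine Nat.card_le_card_of_injective (fun z => (⟨_, hr z⟩ : ↑(PthD R (k + 1) u v))) ?_
    rintro ⟨z, hz, hy, hy1⟩ ⟨z', hz', hy', hy1'⟩ he
    simp only [Subtype.mk.injEq] at he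
    have he1 : ∀ t, t ≤ k + 1 → cyc z (p + t) = cyc z' (p + t) := by
      intro t ht
      have := congrFun he t
      rwa [min_eq_left ht] at this
    have he2 : ∀ t, t ≤ n → cyc z (p + t) = cyc z' (p + t) := by
      intro t ht
      rcases le_total t (k + 1) with htk | htk
      · exact he1 t htk
      · by_cases h0 : h = 0
        · have := hk4 h0
          exact he1 t (by omega)
        · -- the last `n + 1 - (k + 1)` edges
          have h3 := hU V R _ hG (fun i => cyc z (p + (k + 1) + i))
            (fun i => cyc z' (p + (k + 1) + i)) (n - k) (n - k)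
            (H10.isC_path hz _ _ (by omega)) (H10.isC_path hz' _ _ (by omega))
            (he1 (k + 1) le_rfl) (by
              rw [H10.cyc_congr z (s := p + (k + 1) + (n - k)) (t := p) (by
                rw [show p + (k + 1) + (n - k) = p + (n + 1) by omega]; simp),
                H10.cyc_congr z' (s := p + (k + 1) + (n - k)) (t := p) (by
                rw [show p + (k + 1) + (n - k) = p + (n + 1) by omega]; simp), hy, hy'])
            (by omega)
          have h4 := h3.2 (t - (k + 1)) (by omega)
          rwa [show p + (k + 1) + (t - (k + 1)) = p + t by omega] at h4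
    apply Subtype.ext
    simp only
    apply H10.cyc_ext
    intro t ht
    rcases le_total p t with hpt | hpt
    · have := he2 (t - p) (by omega)
      rwa [show p + (t - p) = t by omega] at this
    · by_cases htp : t = p
      · have := he2 0 (by omega)
        rwa [add_zero, ← htp] at this
      · have := he2 (n + 1 - p + t) (by omega)
        rw [H10.cyc_congr z (s := p + (n + 1 - p + t)) (t := t) (by
            rw [show p + (n + 1 - p + t) = t + (n + 1) by omega]; simp),
          H10.cyc_congr z' (s := p + (n + 1 - p + t)) (t := t) (by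
            rw [show p + (n + 1 - p + t) = t + (n + 1) by omega]; simp)] at this
        exact this
  refine le_trans h1 (le_trans (card_pthD R d hd u v k) ?_)
  exact Nat.pow_le_pow_right hd1 hk2

theorem cycDAll : CycDStmt := cycD uniqS cycLen

end H7

end Pool.Agent.LAG
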