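import Pool.Agent.Helper22_LLG.Stmt
import Pool.Agent.Helper7_LLG.Cyc

/-!
# LLG: module CYCC
-/

set_option autoImplicit false

namespace Pool.Agent.LLG.H7

open SimpleGraph Pool.Agent.LAG

theorem cycc : CyccStmt := by
  intro V _ A R k h n p u v hk hRA hd hA hp
  classical
  have hR : Big R (2 * h) := hA.le hRA
  rcases isEmpty_or_nonempty {z : Fin (n + 1) → V // IsC R (cyc z) (n + 1) ∧
      (cyc z p = u ∧ cyc z (p + 1) = v)} with hem | ⟨⟨z0, hz0, hz0u, hz0v⟩⟩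
  · rw [Nat.card_of_isEmpty, mul_zero]
    exact Nat.zero_le _
  have h1 : 2 * h < n + 1 := Pool.Agent.LAG.cycLen V R _ hR _ _ hz0
  have h2 := Pool.Agent.LAG.H7.cycDAll V R h (2 * k) hR hd n p u v hp
  calc (2 * k) ^ h * Nat.card {z : Fin (n + 1) → V // IsC R (cyc z) (n + 1) ∧
      cyc z p = u ∧ cyc z (p + 1) = v} ≤ (2 * k) ^ h * (2 * k) ^ (n - h) :=
        Nat.mul_le_mul_left _ h2
    _ = (2 * k) ^ n := by rw [← pow_add]; congr 1; omega

end Pool.Agent.LLG.H7
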