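import Pool.Agent.Helper22_LLG.Stmt
import Pool.Agent.Helper53_LLG.Path

/-!
# LLG: module HCNT
-/

set_option autoImplicit false

namespace Pool.Agent.LLG.H7

open SimpleGraph Pool.Agent.LAG

/-- The trivial bound for the number of paths through a dart. -/
theorem hcnt_triv (hP : PcntDStmt) (V : Type) [Fintype V] (R : SimpleGraph V) (d n p : ℕ)
    (u v : V) (hB : Big R 2) (hd : ∀ v, (R.neighborSet v).ncard ≤ d) (hp : p < n) :
    Nat.card {z : Fin (n + 1) → V // IsP R (cyc z) n ∧ (cyc z p = u ∧ cyc z (p + 1) = v)} ≤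
      2 ^ n * d ^ (n - 1) := by
  classical
  have h := hP V R R Set.univ 0 d (Nat.card V) (by simpa using hB) le_rfl hd
    (fun v => by
      rw [← Set.ncard_univ]
      exact Set.ncard_le_ncard (Set.subset_univ _) (Set.toFinite _)) n p 0 u v hp
  rw [pow_zero, one_mul, Nat.sub_zero] at h
  refine le_trans (le_of_eq ?_) h
  refine Nat.card_congr (Equiv.subtypeEquivRight fun z => ?_)
  constructor
  · rintro ⟨h1, h2⟩
    refine ⟨h1, h2, ?_⟩
    have h3 : {t : ℕ | t ≤ n ∧ ∃ x ∈ (Set.univ : Set V), near R 0 (cyc z t) x} =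
        ↑(Finset.range (n + 1)) := by
      ext t
      simp only [Set.mem_ofPred_eq, Set.mem_univ, true_and, Finset.coe_range, Set.mem_Iio]
      exact ⟨fun h => by omega, fun h => ⟨by omega, cyc z t, near_refl 0 _⟩⟩
    rw [h3, Set.ncard_coe_finset, Finset.card_range]
    omega
  · rintro ⟨h1, h2, _⟩
    exact ⟨h1, h2⟩

theorem hcnt : HcntStmt := by
  intro V _ A R Q k q n p u v hk hqk hRA hd hA hq hp
  classical
  have hk0 : (0 : ℝ) < 2 * (k : ℝ) := by positivity
  have h1k : (1 : ℝ) ≤ 2 * (k : ℝ) := by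
    have : (1 : ℝ) ≤ (k : ℝ) := by exact_mod_cast hk
    linarith
  by_cases he : n / 4000 = 0
  · -- the trivial bound
    rw [he, pow_zero, mul_one]
    have h1 := hcnt_triv H53.pcntD V R (2 * k) n p u v ((hA.le hRA).mono (by norm_num)) hd hp
    have h2 : Nat.card {z : Fin (n + 1) → V // IsP R (cyc z) n ∧ Heavy A Q (cyc z) n ∧
        cyc z p = u ∧ cyc z (p + 1) = v} ≤ 2 ^ n * (2 * k) ^ (n - 1) := by
      refine le_trans ?_ h1
      refine Nat.card_le_card_of_injective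
        (fun z => ⟨z.1, z.2.1, z.2.2.2⟩) ?_
      intro z z' hz
      simp only [Subtype.mk.injEq] at hz
      exact Subtype.ext hz
    calc (Nat.card {z : Fin (n + 1) → V // IsP R (cyc z) n ∧ Heavy A Q (cyc z) n ∧
        cyc z p = u ∧ cyc z (p + 1) = v} : ℝ) ≤ ((2 ^ n * (2 * k) ^ (n - 1) : ℕ) : ℝ) := by
          exact_mod_cast h2
      _ = 2 ^ n * (2 * (k : ℝ)) ^ (n - 1) := by push_cast; ring
      _ ≤ 2 ^ n * (2 * (k : ℝ)) ^ n := by
          refine mul_le_mul_of_nonneg_left ?_ (by positivity)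
          exact pow_le_pow_right₀ h1k (by omega)
  · have hn : 4000 * (n / 4000) ≤ n := Nat.mul_div_le n 4000
    generalize hE : n / 4000 = e at *
    have he1 : 1 ≤ e := Nat.one_le_iff_ne_zero.2 he
    have h1 := H53.pcntD V A R Q 90 (2 * k) q (hA.mono (by norm_num)) hRA hd
      (fun w => le_trans (Set.ncard_le_ncard
        (t := {x | x ∈ Q ∧ near A 93 x w}) (fun x hx => ⟨hx.1,
        near_symm (near_mono (by norm_num) hx.2)⟩) (Set.toFinite _)) (hq w)) n p e u v hp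
    have h2 : Nat.card {z : Fin (n + 1) → V // IsP R (cyc z) n ∧ Heavy A Q (cyc z) n ∧
        cyc z p = u ∧ cyc z (p + 1) = v} ≤ 2 ^ n * (q ^ e * (2 * k) ^ (n - 1 - e)) := by
      refine le_trans ?_ h1
      refine Nat.card_le_card_of_injective
        (fun z => ⟨z.1, z.2.1, z.2.2.2, ?_⟩) ?_
      · have h3 : n ≤ 8 * {t : ℕ | t ≤ n ∧ cyc z.1 t ∈ Zone A Q}.ncard := z.2.2.1
        have h4 : {t : ℕ | t ≤ n ∧ cyc z.1 t ∈ Zone A Q} =
            {t : ℕ | t ≤ n ∧ ∃ x ∈ Q, near A 90 (cyc z.1 t) x} := rfl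
        rw [h4] at h3
        omega
      · intro z z' hz
        simp only [Subtype.mk.injEq] at hz
        exact Subtype.ext hz
    have h5 : (2 * (k : ℝ)) ^ (n - 1 - e) ≤ (2 * (k : ℝ)) ^ (n - e) :=
      pow_le_pow_right₀ h1k (by omega)
    calc (Nat.card {z : Fin (n + 1) → V // IsP R (cyc z) n ∧ Heavy A Q (cyc z) n ∧
        cyc z p = u ∧ cyc z (p + 1) = v} : ℝ) ≤
          ((2 ^ n * (q ^ e * (2 * k) ^ (n - 1 - e)) : ℕ) : ℝ) := by exact_mod_cast h2
      _ = 2 ^ n * ((q : ℝ) ^ e * (2 * (k : ℝ)) ^ (n - 1 - e)) := by push_cast; ring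
      _ ≤ 2 ^ n * ((q : ℝ) ^ e * (2 * (k : ℝ)) ^ (n - e)) := by
          refine mul_le_mul_of_nonneg_left ?_ (by positivity)
          exact mul_le_mul_of_nonneg_left h5 (by positivity)
      _ = 2 ^ n * (2 * (k : ℝ)) ^ n * ((q : ℝ) / (2 * k)) ^ e := by
          have h6 : (2 * (k : ℝ)) ^ n = (2 * (k : ℝ)) ^ (n - e) * (2 * (k : ℝ)) ^ e := by
            rw [← pow_add]; congr 1; omega
          rw [h6, div_pow]
          field_simp

end Pool.Agent.LLG.H7
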